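import Mathlib
import Pool.Agent.U309.ZF.Stm
import Pool.Agent.TH339.MP.P7

/-!
# Project ZF, package LDF: the Euler product of `L(E/K, s)`

Co-authors: helper309 (project, statement), helper643 (this package); the lemmas on Euler products as
exponentials of Dirichlet series are adapted from `Pool.Agent.N41.RM.Off2`.
-/

set_option autoImplicit false

open NumberField IsDedekindDomain Filter Topology
open scoped ComplexConjugate
open Pool.Agent.TH339.MP (nm pr dg Sp nm_eq dg_pos summable_pr eqv sum_fiber mem_Sp card_Sp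
  prime_pos two_le_prime)

namespace Pool.Agent.U643.ZF

section gen

variable {P : Type} {N : ℕ}

/-- the exponents -/
noncomputable def fq (q : P → ℝ) (x : P × ℕ) : ℝ := (x.2 + 1) * Real.log (q x.1)

/-- the coefficients -/
noncomputable def cq (a : P → Fin N → ℂ) (x : P × ℕ) : ℝ :=
  (∑ j, a x.1 j ^ (x.2 + 1)).re / (x.2 + 1)

/-- the series -/
noncomputable def ser {ι : Type} (lam c : ι → ℝ) (s : ℂ) : ℂ :=
  ∑' i, (c i : ℂ) * Complex.exp (-(s * lam i))

/-- the data of an Euler product with parameters of absolute value at most `q ^ κ` -/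
structure EG (κ : ℝ) (q : P → ℝ) (a : P → Fin N → ℂ) : Prop where
  two_le : ∀ v, 2 ≤ q v
  sum : ∀ σ : ℝ, 1 < σ → Summable fun v => q v ^ (-σ)
  ha : ∀ v j, ‖a v j‖ ≤ q v ^ κ
  real : ∀ v k, (∑ j, a v j ^ (k + 1)).im = 0

variable {q : P → ℝ} {a : P → Fin N → ℂ} {κ : ℝ}

theorem norm_expo (s : ℂ) (x : ℝ) : ‖Complex.exp (-(s * x))‖ = Real.exp (-(s.re * x)) := by
  rw [Complex.norm_exp, Complex.neg_re, Complex.re_mul_ofReal]

theorem EG.pos (E : EG κ q a) (v : P) : 0 < q v := by linarith [E.two_le v]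

theorem EG.fq_nonneg (E : EG κ q a) (x : P × ℕ) : 0 ≤ fq q x := by
  unfold fq
  have := Real.log_nonneg (by linarith [E.two_le x.1] : 1 ≤ q x.1)
  positivity

theorem EG.cq_le (E : EG κ q a) (x : P × ℕ) :
    |cq a x| ≤ N * (q x.1 ^ κ) ^ (x.2 + 1) := by
  have hq0 := E.pos x.1
  have h0 : (0 : ℝ) ≤ x.2 := x.2.cast_nonneg
  unfold cq
  rw [abs_div, abs_of_pos (by positivity : (0 : ℝ) < (x.2 : ℝ) + 1), div_le_iff₀ (by positivity)]
  have h1 : |(∑ j, a x.1 j ^ (x.2 + 1)).re| ≤ N * (q x.1 ^ κ) ^ (x.2 + 1) := by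
    refine (Complex.abs_re_le_norm _).trans ?_
    refine (norm_sum_le_of_le (n := fun _ => (q x.1 ^ κ) ^ (x.2 + 1)) _
      fun j _ => ?_).trans (le_of_eq ?_)
    · rw [norm_pow]
      exact pow_le_pow_left₀ (norm_nonneg _) (E.ha x.1 j) _
    · rw [Finset.sum_const, Finset.card_univ, Fintype.card_fin, nsmul_eq_mul]
  refine h1.trans (le_mul_of_one_le_right (by positivity) (by linarith))

theorem EG.exp_fq (E : EG κ q a) (σ : ℝ) (x : P × ℕ) :
    Real.exp (-(σ * fq q x)) = (q x.1 ^ (-σ)) ^ (x.2 + 1) := by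
  have hq0 := E.pos x.1
  rw [← Real.rpow_natCast, ← Real.rpow_mul hq0.le, Real.rpow_def_of_pos hq0]
  unfold fq
  congr 1
  push_cast
  ring

theorem EG.term_le (E : EG κ q a) {σ : ℝ} (hσ : 1 + κ ≤ σ) (x : P × ℕ) :
    |cq a x| * Real.exp (-(σ * fq q x)) ≤ (N * q x.1 ^ (-(σ - κ))) * (1 / 2) ^ x.2 := by
  have hq0 := E.pos x.1
  rw [E.exp_fq]
  have h1 : (q x.1 ^ κ) ^ (x.2 + 1) * (q x.1 ^ (-σ)) ^ (x.2 + 1) =
      q x.1 ^ (-(σ - κ)) * (q x.1 ^ (-(σ - κ))) ^ x.2 := by
    rw [← mul_pow, ← Real.rpow_add hq0, pow_succ', show κ + -σ = -(σ - κ) by ring]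
  have h2 : q x.1 ^ (-(σ - κ)) ≤ 1 / 2 := by
    calc q x.1 ^ (-(σ - κ)) ≤ q x.1 ^ (-1 : ℝ) :=
          Real.rpow_le_rpow_of_exponent_le (by linarith [E.two_le x.1]) (by linarith)
      _ = (q x.1)⁻¹ := Real.rpow_neg_one _
      _ ≤ 2⁻¹ := inv_anti₀ (by norm_num) (E.two_le x.1)
      _ = 1 / 2 := by norm_num
  calc |cq a x| * (q x.1 ^ (-σ)) ^ (x.2 + 1)
      ≤ N * (q x.1 ^ κ) ^ (x.2 + 1) * (q x.1 ^ (-σ)) ^ (x.2 + 1) := by
        gcongr
        exact E.cq_le x
    _ = (N * q x.1 ^ (-(σ - κ))) * (q x.1 ^ (-(σ - κ))) ^ x.2 := by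
      rw [mul_assoc, h1, mul_assoc]
    _ ≤ _ := by gcongr

theorem geo : Summable fun n : ℕ => (1 / 2 : ℝ) ^ n :=
  summable_geometric_of_lt_one (by norm_num) (by norm_num)

theorem EG.major (E : EG κ q a) {σ : ℝ} (hσ : 1 + κ < σ) :
    Summable fun x : P × ℕ => (N * q x.1 ^ (-(σ - κ))) * (1 / 2) ^ x.2 :=
  ((E.sum (σ - κ) (by linarith)).mul_left (N : ℝ)).mul_of_nonneg geo
    (fun v => by
      have := E.pos v
      show 0 ≤ (N : ℝ) * q v ^ (-(σ - κ))
      positivity) (fun n => by positivity)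

theorem EG.summable (E : EG κ q a) {σ : ℝ} (hσ : 1 + κ < σ) :
    Summable fun x => |cq a x| * Real.exp (-(σ * fq q x)) :=
  Summable.of_nonneg_of_le (fun x => by positivity) (fun x => E.term_le (by linarith) x) (E.major hσ)

theorem EG.tsum_le (E : EG κ q a) {σ : ℝ} (hσ : 1 + κ < σ) :
    ∑' x, |cq a x| * Real.exp (-(σ * fq q x)) ≤ 2 * N * ∑' v, q v ^ (-(σ - κ)) := by
  refine ((E.summable hσ).tsum_le_tsum (fun x => E.term_le (by linarith) x) (E.major hσ)).trans
    (le_of_eq ?_)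
  have h1 := tsum_mul_tsum_of_summable_norm (R := ℝ)
    (f := fun v => (N : ℝ) * q v ^ (-(σ - κ))) (g := fun n : ℕ => (1 / 2 : ℝ) ^ n)
    (((E.sum (σ - κ) (by linarith)).mul_left (N : ℝ)).abs) (geo.abs)
  rw [← h1, tsum_mul_left, tsum_geometric_of_lt_one (by norm_num) (by norm_num)]
  ring

/-- the Euler factor at `v` in terms of the series -/
theorem EG.factor_sum (E : EG κ q a) {w : ℂ} (hw : 1 + κ < w.re) (v : P) :
    HasSum (fun n : ℕ => (cq a (v, n) : ℂ) * Complex.exp (-(w * fq q (v, n))))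
      (∑' n : ℕ, (cq a (v, n) : ℂ) * Complex.exp (-(w * fq q (v, n)))) ∧
    Complex.exp (∑' n : ℕ, (cq a (v, n) : ℂ) * Complex.exp (-(w * fq q (v, n)))) =
      ∏ j, (1 - a v j * (q v : ℂ) ^ (-w))⁻¹ := by
  have hq0 := E.pos v
  set x : ℂ := (q v : ℂ) ^ (-w) with hx
  have hxn : ‖x‖ = q v ^ (-w.re) := by
    rw [hx, Complex.norm_cpow_eq_rpow_re_of_pos hq0]
    simp
  have hb : ∀ j, ‖a v j * x‖ < 1 := by
    intro j
    rw [norm_mul, hxn]
    calc ‖a v j‖ * q v ^ (-w.re) ≤ q v ^ κ * q v ^ (-w.re) := by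
          gcongr
          exact E.ha v j
      _ = q v ^ (κ + -w.re) := (Real.rpow_add hq0 _ _).symm
      _ < 1 := Real.rpow_lt_one_of_one_lt_of_neg (by linarith [E.two_le v]) (by linarith)
  have hterm : ∀ n : ℕ, (cq a (v, n) : ℂ) * Complex.exp (-(w * fq q (v, n))) =
      ∑ j, (a v j * x) ^ (n + 1) / ((n + 1 : ℕ) : ℂ) := by
    intro n
    have e1 : x ^ (n + 1) = Complex.exp (-(w * fq q (v, n))) := by
      have hqc : (q v : ℂ) ≠ 0 := by exact_mod_cast hq0.ne'
      rw [hx, Complex.cpow_def_of_ne_zero hqc, ← Complex.exp_nat_mul]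
      congr 1
      unfold fq
      rw [← Complex.ofReal_log hq0.le]
      push_cast
      ring
    have e2 : (cq a (v, n) : ℂ) = (∑ j, a v j ^ (n + 1)) / ((n + 1 : ℕ) : ℂ) := by
      have e3 : ((∑ j, a v j ^ (n + 1)).re : ℂ) = ∑ j, a v j ^ (n + 1) := by
        apply Complex.ext
        · simp
        · rw [E.real v n, Complex.ofReal_im]
      unfold cq
      push_cast
      rw [e3]
    rw [e2, ← e1, Finset.sum_div, Finset.sum_mul]
    refine Finset.sum_congr rfl fun j _ => ?_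
    rw [mul_pow]
    ring
  have hs : ∀ z : ℂ, ‖z‖ < 1 →
      HasSum (fun n : ℕ => z ^ (n + 1) / ((n + 1 : ℕ) : ℂ)) (-Complex.log (1 - z)) := by
    intro z hz
    have := Complex.hasSum_taylorSeries_neg_log hz
    rw [← hasSum_nat_add_iff' 1] at this
    simpa using this
  have hS : HasSum (fun n : ℕ => (cq a (v, n) : ℂ) * Complex.exp (-(w * fq q (v, n))))
      (∑ j, -Complex.log (1 - a v j * x)) := by
    simp only [hterm]
    exact hasSum_sum fun j _ => hs _ (hb j)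
  refine ⟨hS.summable.hasSum, ?_⟩
  rw [hS.tsum_eq, Complex.exp_sum]
  refine Finset.prod_congr rfl fun j _ => ?_
  rw [Complex.exp_neg]
  have hne : 1 - a v j * x ≠ 0 := by
    intro h
    rw [sub_eq_zero] at h
    have := hb j
    rw [← h] at this
    simp at this
  rw [Complex.exp_log hne]

theorem EG.csummable (E : EG κ q a) {w : ℂ} (hw : 1 + κ < w.re) :
    Summable fun x : P × ℕ => (cq a x : ℂ) * Complex.exp (-(w * fq q x)) := by
  refine Summable.of_norm_bounded (E.summable hw) fun x => ?_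
  rw [norm_mul, Complex.norm_real, Real.norm_eq_abs, norm_expo]

/-- the Euler product is the exponential of the series -/
theorem EG.hasProd (E : EG κ q a) {w : ℂ} (hw : 1 + κ < w.re) :
    HasProd (fun v => ∏ j, (1 - a v j * (q v : ℂ) ^ (-w))⁻¹)
      (Complex.exp (ser (fq q) (cq a) w)) := by
  have h1 : HasSum (fun x : P × ℕ => (cq a x : ℂ) * Complex.exp (-(w * fq q x)))
      (ser (fq q) (cq a) w) := (E.csummable hw).hasSum
  have h2 := h1.prod_fiberwise (fun v => (E.factor_sum hw v).1)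
  have h3 := h2.cexp
  have h4 : (Complex.exp ∘ fun v =>
      ∑' n : ℕ, (cq a (v, n) : ℂ) * Complex.exp (-(w * fq q (v, n)))) =
      fun v => ∏ j, (1 - a v j * (q v : ℂ) ^ (-w))⁻¹ := by
    funext v
    exact (E.factor_sum hw v).2
  rw [h4] at h3
  exact h3

/-- the bound for the series -/
theorem EG.ser_le (E : EG κ q a) {σ : ℝ} (hσ : 1 + κ < σ) {w : ℂ} (hw : σ ≤ w.re) :
    ‖ser (fq q) (cq a) w‖ ≤ 2 * N * ∑' v, q v ^ (-(σ - κ)) := by
  refine le_trans ?_ (E.tsum_le hσ)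
  refine tsum_of_norm_bounded (E.summable hσ).hasSum fun x => ?_
  rw [norm_mul, Complex.norm_real, Real.norm_eq_abs, norm_expo]
  refine mul_le_mul_of_nonneg_left ?_ (abs_nonneg _)
  apply Real.exp_le_exp.2
  have := E.fq_nonneg x
  nlinarith

theorem ser_conj {ι : Type} (lam c : ι → ℝ) (s : ℂ) : ser lam c (conj s) = conj (ser lam c s) := by
  unfold ser
  rw [Complex.conj_tsum]
  refine tsum_congr fun i => ?_
  rw [map_mul, Complex.conj_ofReal, ← Complex.exp_conj, map_neg, map_mul, Complex.conj_ofReal]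

/-- the series with the factor `λ` -/
theorem EG.summable' (E : EG κ q a) {σ : ℝ} (hσ : 1 + κ < σ) :
    Summable fun x => |cq a x| * (fq q x * Real.exp (-(σ * fq q x))) := by
  set ρ : ℝ := (1 + κ + σ) / 2 with hρ
  have hρ1 : 1 + κ < ρ := by rw [hρ]; linarith
  have hε : 0 < σ - ρ := by rw [hρ]; linarith
  refine Summable.of_nonneg_of_le (fun x => ?_) (fun x => ?_)
    ((E.summable hρ1).mul_left ((σ - ρ)⁻¹))
  · have := E.fq_nonneg x
    positivity
  · have h0 := E.fq_nonneg x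
    have h1 : (σ - ρ) * fq q x ≤ Real.exp ((σ - ρ) * fq q x) := by
      linarith [Real.add_one_le_exp ((σ - ρ) * fq q x)]
    have h2 : fq q x ≤ (σ - ρ)⁻¹ * Real.exp ((σ - ρ) * fq q x) := by
      rw [inv_mul_eq_div, le_div_iff₀ hε]
      linarith
    have h3 : Real.exp ((σ - ρ) * fq q x) * Real.exp (-(σ * fq q x)) = Real.exp (-(ρ * fq q x)) := by
      rw [← Real.exp_add]
      congr 1
      ring
    calc |cq a x| * (fq q x * Real.exp (-(σ * fq q x)))
        ≤ |cq a x| * (((σ - ρ)⁻¹ * Real.exp ((σ - ρ) * fq q x)) * Real.exp (-(σ * fq q x))) := by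
          gcongr
      _ = (σ - ρ)⁻¹ * (|cq a x| * Real.exp (-(ρ * fq q x))) := by
          rw [← h3]
          ring

/-- the derivative of the series -/
theorem EG.hasDerivAt (E : EG κ q a) {s : ℂ} (hs : 1 + κ < s.re) :
    HasDerivAt (ser (fq q) (cq a))
      (∑' x, (cq a x : ℂ) * (-(fq q x : ℂ) * Complex.exp (-(s * fq q x)))) s := by
  set ρ : ℝ := (1 + κ + s.re) / 2 with hρ
  have hρ1 : 1 + κ < ρ := by rw [hρ]; linarith
  have hρσ : ρ < s.re := by rw [hρ]; linarith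
  have hopen : IsOpen {z : ℂ | ρ < z.re} := isOpen_lt continuous_const Complex.continuous_re
  have hconv : Convex ℝ {z : ℂ | ρ < z.re} := convex_halfSpace_re_gt ρ
  have hg : ∀ (x : P × ℕ) (y : ℂ), y ∈ {z : ℂ | ρ < z.re} →
      HasDerivAt (fun z : ℂ => (cq a x : ℂ) * Complex.exp (-(z * fq q x)))
        ((cq a x : ℂ) * (-(fq q x : ℂ) * Complex.exp (-(y * fq q x)))) y := by
    intro x y _
    have h1 : HasDerivAt (fun z : ℂ => -(z * (fq q x : ℂ))) (-(1 * (fq q x : ℂ))) y :=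
      ((hasDerivAt_id y).mul_const _).neg
    have h2 := (h1.cexp).const_mul (cq a x : ℂ)
    have e : (cq a x : ℂ) * (Complex.exp (-(y * (fq q x : ℂ))) * (-(1 * (fq q x : ℂ)))) =
        (cq a x : ℂ) * (-(fq q x : ℂ) * Complex.exp (-(y * fq q x))) := by ring
    rw [← e]
    exact h2
  exact hasDerivAt_tsum_of_isPreconnected (E.summable' hρ1) hopen hconv.isPreconnected hg
    (fun x y hy => by
      rw [norm_mul, Complex.norm_real, Real.norm_eq_abs, norm_mul, norm_neg, Complex.norm_real,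
        Real.norm_of_nonneg (E.fq_nonneg x), norm_expo]
      have h0 := E.fq_nonneg x
      have hy' : ρ < y.re := hy
      have : Real.exp (-(y.re * fq q x)) ≤ Real.exp (-(ρ * fq q x)) := by
        apply Real.exp_le_exp.2
        nlinarith
      gcongr) (show ρ < s.re from hρσ) (E.csummable hs) (show ρ < s.re from hρσ)

end gen

section field

variable {K : Type} [Field K] [NumberField K]

lemma two_le_q (v : HeightOneSpectrum (𝓞 K)) : (2 : ℝ) ≤ (nm v : ℝ) := by
  have h : 2 ≤ nm v := by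
    rw [nm_eq]
    calc 2 ≤ ((pr v : ℕ)) := (pr v).2.two_le
      _ ≤ (pr v : ℕ) ^ dg v := Nat.le_self_pow (dg_pos v).ne' _
  exact_mod_cast h

lemma pr_le (v : HeightOneSpectrum (𝓞 K)) : ((pr v : ℕ) : ℝ) ≤ nm v := by
  rw [nm_eq]
  exact_mod_cast Nat.le_self_pow (dg_pos v).ne' _

lemma summable_nm {σ : ℝ} (hσ : 1 < σ) :
    Summable fun v : HeightOneSpectrum (𝓞 K) => (nm v : ℝ) ^ (-σ) := by
  refine Summable.of_nonneg_of_le
    (fun v => Real.rpow_nonneg (by linarith [two_le_q v]) _) (fun v => ?_)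
    (summable_pr (K := K) hσ)
  exact Real.rpow_le_rpow_of_nonpos (prime_pos _) (pr_le v) (by linarith)

/-- the sum over the primes of `K` is at most `n` times the sum over the rational primes -/
lemma tsum_nm_le {σ : ℝ} (hσ : 1 < σ) :
    ∑' v : HeightOneSpectrum (𝓞 K), (nm v : ℝ) ^ (-σ) ≤
      Module.finrank ℚ K * ∑' p : Nat.Primes, ((p : ℕ) : ℝ) ^ (-σ) := by
  have hp : Summable fun p : Nat.Primes => ((p : ℕ) : ℝ) ^ (-σ) :=
    (Nat.Primes.summable_rpow (r := -σ)).2 (by linarith)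
  have hgs := summable_pr (K := K) hσ
  refine ((summable_nm hσ).tsum_le_tsum (fun v =>
    Real.rpow_le_rpow_of_nonpos (prime_pos _) (pr_le v) (by linarith)) hgs).trans ?_
  have hgs' : Summable fun x : (Σ p : Nat.Primes, {v : HeightOneSpectrum (𝓞 K) // pr v = p}) =>
      ((pr x.2.1 : ℕ) : ℝ) ^ (-σ) := (eqv (K := K)).summable_iff.2 hgs
  have h3 : ∑' x : (Σ p : Nat.Primes, {v : HeightOneSpectrum (𝓞 K) // pr v = p}),
      ((pr x.2.1 : ℕ) : ℝ) ^ (-σ) = ∑' v : HeightOneSpectrum (𝓞 K), ((pr v : ℕ) : ℝ) ^ (-σ) :=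
    (eqv (K := K)).tsum_eq fun v => ((pr v : ℕ) : ℝ) ^ (-σ)
  rw [← h3, hgs'.tsum_sigma, ← tsum_mul_left]
  refine Summable.tsum_le_tsum (fun p => ?_) hgs'.sigma (hp.mul_left _)
  rw [tsum_fintype, sum_fiber p (fun v => ((pr v : ℕ) : ℝ) ^ (-σ))]
  have h4 : ∑ v ∈ (Sp p : Finset (HeightOneSpectrum (𝓞 K))), ((pr v : ℕ) : ℝ) ^ (-σ) =
      ((Sp p : Finset (HeightOneSpectrum (𝓞 K))).card : ℝ) * ((p : ℕ) : ℝ) ^ (-σ) := by
    rw [← nsmul_eq_mul, ← Finset.sum_const]
    refine Finset.sum_congr rfl fun v hv => ?_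
    rw [mem_Sp] at hv
    rw [hv]
  rw [h4]
  exact mul_le_mul_of_nonneg_right (card_Sp p) (Real.rpow_nonneg (prime_pos p).le _)

open Pool.Agent.U309.ZF

lemma psum_real {x y : ℂ} (h1 : (x + y).im = 0) (h2 : (x * y).im = 0) (k : ℕ) :
    (x ^ k + y ^ k).im = 0 := by
  suffices h : (x ^ k + y ^ k).im = 0 ∧ (x ^ (k + 1) + y ^ (k + 1)).im = 0 from h.1
  induction k with
  | zero => simpa using h1
  | succ k ih =>
    refine ⟨ih.2, ?_⟩
    have e : x ^ (k + 1 + 1) + y ^ (k + 1 + 1) =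
        (x + y) * (x ^ (k + 1) + y ^ (k + 1)) - (x * y) * (x ^ k + y ^ k) := by ring
    rw [e, Complex.sub_im, Complex.mul_im (x + y), Complex.mul_im (x * y), h1, h2, ih.1, ih.2]
    ring

theorem eg {a b : ℤ} {α : HeightOneSpectrum (𝓞 K) → Fin 2 → ℂ} (h : IsParameter a b α) :
    EG (1 / 2) (q (K := K)) α where
  two_le := fun v => two_le_q v
  sum := fun σ hσ => summable_nm hσ
  ha := fun v j => by
    rw [← Real.sqrt_eq_rpow]
    exact h.norm v j
  real := fun v k => by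
    rw [Fin.sum_univ_two]
    exact psum_real (h.real v).1 (h.real v).2 _

theorem F_eq {a b : ℤ} {α : HeightOneSpectrum (𝓞 K) → Fin 2 → ℂ} {F : ℂ → ℂ}
    (h : IsParameter a b α) (hF : IsContinuation α F) {s : ℂ} (hs : 3 / 2 < s.re) :
    F s = Complex.exp (ser (fq (q (K := K))) (cq α) s) := by
  rw [hF.2 s hs, ((eg h).hasProd (by linarith)).tprod_eq]

/-- the term of the logarithmic derivative -/
theorem term_eq {α : HeightOneSpectrum (𝓞 K) → Fin 2 → ℂ} (δ μ : ℝ)
    (x : HeightOneSpectrum (𝓞 K) × ℕ) :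
    ((cq α x : ℂ) * (-(fq (q (K := K)) x : ℂ) *
      Complex.exp (-((((3 / 2 + δ : ℝ) : ℂ) + μ * Complex.I) * fq (q (K := K)) x)))).re =
      -((((∑ j, α x.1 j ^ (x.2 + 1)).re / √(q x.1) ^ (x.2 + 1)) *
            Real.cos (μ * ((x.2 + 1) * Real.log (q x.1)))) * wt δ x) := by
  have hq0 : (0 : ℝ) < q x.1 := by
    have : (2 : ℝ) ≤ q x.1 := two_le_q x.1
    linarith
  have e1 : (-((((3 / 2 + δ : ℝ) : ℂ) + μ * Complex.I) * fq (q (K := K)) x)) =
      ((-((3 / 2 + δ) * fq (q (K := K)) x) : ℝ) : ℂ) +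
        ((-(μ * fq (q (K := K)) x) : ℝ) : ℂ) * Complex.I := by
    push_cast
    ring
  rw [e1, Complex.exp_add, ← Complex.ofReal_exp, ← Complex.ofReal_neg, ← mul_assoc, ← mul_assoc,
    ← Complex.ofReal_mul, ← Complex.ofReal_mul, Complex.re_ofReal_mul,
    Complex.exp_ofReal_mul_I_re, Real.cos_neg]
  have e2 : Real.exp (-((3 / 2 + δ) * fq (q (K := K)) x)) =
      (√(q x.1) ^ (x.2 + 1))⁻¹ * q x.1 ^ (-((x.2 + 1) * (1 + δ)) : ℝ) := by
    rw [Real.sqrt_eq_rpow, ← Real.rpow_natCast, ← Real.rpow_mul hq0.le, ← Real.rpow_neg hq0.le,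
      ← Real.rpow_add hq0, Real.rpow_def_of_pos hq0]
    unfold fq
    congr 1
    push_cast
    ring
  rw [e2]
  unfold cq wt fq
  have h0 : ((x.2 : ℝ) + 1) ≠ 0 := by positivity
  field_simp

theorem logDeriv_eq {a b : ℤ} {α : HeightOneSpectrum (𝓞 K) → Fin 2 → ℂ} {F : ℂ → ℂ}
    (h : IsParameter a b α) (hF : IsContinuation α F) {δ μ : ℝ} (hδ : 0 < δ) :
      (logDeriv F ((3 / 2 + δ : ℝ) + μ * Complex.I)).re =
        -∑' x : HeightOneSpectrum (𝓞 K) × ℕ,
          (((∑ j, α x.1 j ^ (x.2 + 1)).re / √(q x.1) ^ (x.2 + 1)) *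
            Real.cos (μ * ((x.2 + 1) * Real.log (q x.1)))) * wt δ x := by
  set s : ℂ := ((3 / 2 + δ : ℝ) : ℂ) + μ * Complex.I with hs
  have hre : s.re = 3 / 2 + δ := by
    rw [hs]
    simp
  have hs1 : 3 / 2 < s.re := by rw [hre]; linarith
  have hs2 : 1 + (1 / 2 : ℝ) < s.re := by linarith
  have E := eg h
  have hd := E.hasDerivAt hs2
  have hev : F =ᶠ[𝓝 s] fun z => Complex.exp (ser (fq (q (K := K))) (cq α) z) := by
    have ho : IsOpen {z : ℂ | 3 / 2 < z.re} := isOpen_lt continuous_const Complex.continuous_re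
    filter_upwards [ho.mem_nhds (show 3 / 2 < s.re from hs1)] with z hz
    exact F_eq h hF hz
  have hd2 := hd.cexp
  have h1 : logDeriv F s = ∑' x, (cq α x : ℂ) * (-(fq (q (K := K)) x : ℂ) *
      Complex.exp (-(s * fq (q (K := K)) x))) := by
    rw [logDeriv_apply, hev.deriv_eq, hd2.deriv, F_eq h hF hs1, mul_div_assoc, mul_comm,
      div_mul_cancel₀ _ (Complex.exp_ne_zero _)]
  have hsum : Summable fun x => (cq α x : ℂ) * (-(fq (q (K := K)) x : ℂ) *
      Complex.exp (-(s * fq (q (K := K)) x))) := by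
    refine Summable.of_norm_bounded (E.summable' hs2) fun x => ?_
    rw [norm_mul, Complex.norm_real, Real.norm_eq_abs, norm_mul, norm_neg, Complex.norm_real,
        Real.norm_of_nonneg (E.fq_nonneg x), norm_expo]
  rw [h1, Complex.re_tsum hsum, ← tsum_neg]
  refine tsum_congr fun x => ?_
  rw [hs]
  exact term_eq δ μ x

end field

/-- Package LDF of project ZF. -/
theorem t_LDF : Pool.Agent.U309.ZF.S_LDF := by
  intro n
  set Z : ℝ := ∑' p : Nat.Primes, ((p : ℕ) : ℝ) ^ (-(3 / 2) : ℝ) with hZ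
  have hZ0 : 0 ≤ Z := tsum_nonneg fun p => Real.rpow_nonneg (prime_pos p).le _
  refine ⟨4 * (n * Z) + 1, by positivity, ?_⟩
  intro K _ _ hn a b α F h hF
  have E := eg h
  refine ⟨fun s hs => ?_, ?_, fun s hs => ?_, fun δ μ hδ _ => logDeriv_eq h hF hδ⟩
  · rw [F_eq h hF hs]
    exact Complex.exp_ne_zero _
  · -- conjugation
    have hd : Differentiable ℂ F := hF.1
    have hG : Differentiable ℂ (fun s => conj (F (conj s))) := by
      intro s
      have h1 := (hd (conj s)).conj_conj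
      rw [Complex.conj_conj] at h1
      exact h1
    have hFa : AnalyticOnNhd ℂ F Set.univ := fun z _ => hd.analyticAt z
    have hGa : AnalyticOnNhd ℂ (fun s => conj (F (conj s))) Set.univ := fun z _ => hG.analyticAt z
    have hev : F =ᶠ[𝓝 (2 : ℂ)] fun s => conj (F (conj s)) := by
      have ho : IsOpen {z : ℂ | 3 / 2 < z.re} := isOpen_lt continuous_const Complex.continuous_re
      filter_upwards [ho.mem_nhds (show (3 / 2 : ℝ) < (2 : ℂ).re by norm_num)] with z hz
      have hz' : 3 / 2 < z.re := hz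
      rw [F_eq h hF hz', F_eq h hF (show 3 / 2 < (conj z).re by rwa [Complex.conj_re]),
        ser_conj, Complex.exp_conj, Complex.conj_conj]
    have heq : F = fun s => conj (F (conj s)) := hFa.eq_of_eventuallyEq hGa hev
    intro s
    have := congrFun heq (conj s)
    simpa using this
  · have hs1 : 3 / 2 < s.re := by linarith
    have hb := E.ser_le (σ := 2) (by norm_num) hs
    have hq : ∑' v : HeightOneSpectrum (𝓞 K), Pool.Agent.U309.ZF.q v ^ (-(2 - 1 / 2) : ℝ) ≤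
        n * Z := by
      have := tsum_nm_le (K := K) (σ := 3 / 2) (by norm_num)
      rw [hn] at this
      rw [show (-(2 - 1 / 2) : ℝ) = -(3 / 2) by norm_num]
      exact this
    have hb2 : ‖ser (fq (Pool.Agent.U309.ZF.q (K := K))) (cq α) s‖ ≤ 4 * (n * Z) := by
      refine hb.trans ?_
      push_cast
      nlinarith
    have hb3 := (Complex.abs_re_le_norm _).trans hb2
    rw [abs_le] at hb3
    rw [F_eq h hF hs1, Complex.norm_exp]
    exact ⟨Real.exp_le_exp.2 (by linarith [hb3.2]), Real.exp_le_exp.2 (by linarith [hb3.1])⟩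

end Pool.Agent.U643.ZF
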